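import Pool.Agent.Q21.SU.Good
import Pool.Agent.TH236.SUDiag

set_option autoImplicit false

namespace Pool.Q21.SU

open Matrix Equiv

theorem base2 {d e : ℂ} (hd : ‖d‖ = 1) (he : ‖e‖ = 1) : GoodM false (d ::ₘ e ::ₘ 0) 1 (d * e) := by
  have ud : d * star d = 1 := unit_conj hd
  refine ⟨Fin 2, inferInstance, inferInstance, ![d, e], ?_, ⟨1, 1, ![d, star d], ![1, d * e],
    Equiv.swap 0 1, 1, 0, 1, one_mem _, one_mem _, ?_, ?_, ?_, ?_, ?_, ?_, ?_, ?_, ?_, ?_, ?_, ?_,
    ?_, ?_, ?_⟩⟩
  · simp [Fin.univ_val_map]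
    rfl
  · intro i
    fin_cases i
    · exact hd
    · exact norm_star' hd
  · intro i
    fin_cases i
    · exact norm_one
    · show ‖d * e‖ = 1
      rw [norm_mul, hd, he, one_mul]
  · simp only [star_one, Matrix.mul_one, Matrix.one_mul, diagonal_mul_diagonal]
    apply congrArg
    funext i
    fin_cases i
    · show d = d * 1
      rw [mul_one]
    · show e = star d * (d * e)
      calc e = (d * star d) * e := by rw [ud, one_mul]
        _ = _ := by ring
  · intro i
    rw [Equiv.swap_apply_self]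
  · intro i; rfl
  · intro i
    fin_cases i
    · rfl
    · show d = star (star d)
      rw [star_star]
  · rw [Fin.prod_univ_two]; exact ud
  · decide
  · rfl
  · rfl
  · rfl
  · rfl
  · intro i hi hi'
    fin_cases i
    · exact absurd rfl hi
    · exact absurd rfl hi'
  · intro h; cases h
  · intro _
    rw [Perm.sign_swap (by decide), Fintype.card_fin]
    norm_num

/-- rotations -/
def rot (c s : ℝ) : Matrix (Fin 2) (Fin 2) ℂ := !![(c : ℂ), -(s : ℂ); (s : ℂ), (c : ℂ)]

theorem rot_mem (c s : ℝ) (h : c ^ 2 + s ^ 2 = 1) : rot c s ∈ unitaryGroup (Fin 2) ℂ := by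
  rw [mem_unitaryGroup_iff, star_eq_conjTranspose]
  have h' : (c : ℂ) ^ 2 + (s : ℂ) ^ 2 = 1 := by exact_mod_cast h
  ext i j
  fin_cases i <;> fin_cases j <;>
    simp [rot, Matrix.mul_apply, Fin.sum_univ_two, Matrix.conjTranspose_apply] <;>
    first
      | linear_combination h'
      | ring

theorem rot_sq (c s : ℝ) (y w : ℂ) : rot c s * diagonal ![y, w] * star (rot c s) =
    !![y * c ^ 2 + w * s ^ 2, (y - w) * (c * s); (y - w) * (c * s), y * s ^ 2 + w * c ^ 2] := by
  have hd : diagonal ![y, w] = !![y, 0; 0, w] := by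
    ext i j
    fin_cases i <;> fin_cases j <;> simp [Matrix.diagonal]
  rw [star_eq_conjTranspose, hd]
  ext i j
  fin_cases i <;> fin_cases j <;>
    simp [rot, Matrix.mul_apply, Fin.sum_univ_two, Matrix.conjTranspose_apply] <;>
    ring

theorem block {a b y w r : ℂ} (ha : ‖a‖ = 1) (hb : ‖b‖ = 1) (hy : ‖y‖ = 1) (hw : ‖w‖ = 1)
    (hr : ‖r‖ = 1) (hr2 : r * r = a * b)
    (hin : (a * star r).re ∈ Set.uIcc (y * star r).re (w * star r).re) :
    ∃ (U V : Matrix (Fin 2) (Fin 2) ℂ), U ∈ unitaryGroup (Fin 2) ℂ ∧ V ∈ unitaryGroup (Fin 2) ℂ ∧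
      diagonal ![a, b] = (U * diagonal ![1, a * b * (star y * star w)] * star U) *
        (V * diagonal ![y, w] * star V) := by
  have ua := unit_conj ha
  have ub := unit_conj hb
  have uy := unit_conj hy
  have uw := unit_conj hw
  have ur := unit_conj hr
  -- the traces
  have tr : ∀ z : ℂ, ‖z‖ = 1 → z + a * b * star z = 2 * r * ((z * star r).re : ℂ) := by
    intro z hz
    have uz := unit_conj hz
    have h1 : (((z * star r).re : ℝ) : ℂ) = (z * star r + star (z * star r)) / 2 := by
      rw [Complex.re_eq_add_conj]; rfl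
    rw [h1, star_mul', star_star, ← hr2]
    linear_combination (-z) * ur
  have ta : a + b = 2 * r * ((a * star r).re : ℂ) := by
    rw [← tr a ha]
    linear_combination (-b) * ua
  obtain ⟨c, s, hcs, hc⟩ : ∃ c s : ℝ, c ^ 2 + s ^ 2 = 1 ∧
      c ^ 2 * (y * star r).re + s ^ 2 * (w * star r).re = (a * star r).re := by
    rw [← segment_eq_uIcc] at hin
    obtain ⟨t, u, ht, hu, htu, h⟩ := hin
    refine ⟨Real.sqrt t, Real.sqrt u, ?_, ?_⟩
    · rw [Real.sq_sqrt ht, Real.sq_sqrt hu, htu]
    · rw [Real.sq_sqrt ht, Real.sq_sqrt hu]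
      simpa [smul_eq_mul] using h
  have hcs' : (c : ℂ) ^ 2 + (s : ℂ) ^ 2 = 1 := by exact_mod_cast hcs
  set p : ℂ := a * b * (star y * star w) with hp
  have hpn : ‖p‖ = 1 := by
    rw [hp]; simp only [norm_mul, norm_star', ha, hb, hy, hw, one_mul]
  set W := rot c s
  have hW : W ∈ unitaryGroup (Fin 2) ℂ := rot_mem c s hcs
  have hWs : W * star W = 1 := mem_unitaryGroup_iff.1 hW
  have hWs' : star W * W = 1 := mem_unitaryGroup_iff'.1 hW
  set M : Matrix (Fin 2) (Fin 2) ℂ := diagonal ![1, p] * (W * diagonal ![y, w] * star W) with hM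
  have hMu : M ∈ unitaryGroup (Fin 2) ℂ := by
    refine mul_mem (diag_unitary _ ?_) (mul_mem (mul_mem hW (diag_unitary _ ?_)) (Unitary.star_mem hW))
    · intro i; fin_cases i
      · exact norm_one
      · exact hpn
    · intro i; fin_cases i
      · exact hy
      · exact hw
  have hMtr : M.trace = a + b := by
    have hq : (y + p * w) * (c : ℂ) ^ 2 + (w + p * y) * (s : ℂ) ^ 2 = a + b := by
      have e1 : p * w = a * b * star y := by rw [hp]; linear_combination (a * b * star y) * uw
      have e2 : p * y = a * b * star w := by rw [hp]; linear_combination (a * b * star w) * uy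
      rw [e1, e2, tr y hy, tr w hw, ta]
      have : ((a * star r).re : ℂ) = (c : ℂ) ^ 2 * ((y * star r).re : ℂ) + (s : ℂ) ^ 2 * ((w * star r).re : ℂ) := by
        rw [← hc]; push_cast; ring
      rw [this]; ring
    rw [hM, rot_sq, Matrix.trace_fin_two]
    simp [Matrix.diagonal_mul]
    linear_combination hq
  have hMdet : M.det = a * b := by
    rw [hM, det_mul, det_mul, det_mul, det_diagonal, det_diagonal]
    have : W.det * (star W).det = 1 := by rw [← det_mul, hWs, det_one]
    simp only [Fin.prod_univ_two, Matrix.cons_val_zero, Matrix.cons_val_one]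
    have e : p * (y * w) = a * b := by
      rw [hp]; linear_combination (a * b * (w * star w)) * uy + (a * b) * uw
    calc _ = p * (y * w) * (W.det * (star W).det) := by ring
      _ = _ := by rw [this, e, mul_one]
  obtain ⟨V, hV, f, hf⟩ := Pool.TH236.SU.unitary_diag M hMu
  have hVs : V * star V = 1 := mem_unitaryGroup_iff.1 hV
  have hVs' : star V * V = 1 := mem_unitaryGroup_iff'.1 hV
  have htr : f 0 + f 1 = a + b := by
    rw [← hMtr, hf, Matrix.trace_mul_cycle, hVs', Matrix.one_mul, Matrix.trace_diagonal, Fin.sum_univ_two]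
  have hdet : f 0 * f 1 = a * b := by
    rw [← hMdet, hf, det_mul, det_mul, det_diagonal, Fin.prod_univ_two]
    have : V.det * (star V).det = 1 := by rw [← det_mul, hVs, det_one]
    calc f 0 * f 1 = f 0 * f 1 * (V.det * (star V).det) := by rw [this, mul_one]
      _ = _ := by ring
  obtain ⟨Z, hZ, hfin⟩ : ∃ Z : Matrix (Fin 2) (Fin 2) ℂ, Z ∈ unitaryGroup (Fin 2) ℂ ∧
      diagonal ![a, b] = Z * diagonal f * star Z := by
    have hcase : (f 0 - a) * (f 0 - b) = 0 := by linear_combination (-1 : ℂ) * hdet + f 0 * htr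
    rcases mul_eq_zero.1 hcase with h | h
    · have h0 : f 0 = a := sub_eq_zero.1 h
      have h1 : f 1 = b := by linear_combination htr - h0
      refine ⟨1, one_mem _, ?_⟩
      rw [Matrix.one_mul, star_one, Matrix.mul_one]
      apply congrArg
      funext i; fin_cases i
      · exact h0.symm
      · exact h1.symm
    · have h0 : f 0 = b := sub_eq_zero.1 h
      have h1 : f 1 = a := by linear_combination htr - h0
      refine ⟨(Equiv.swap (0 : Fin 2) 1).permMatrix ℂ, perm_unitary _, ?_⟩
      have hsw : (Equiv.swap (0 : Fin 2) 1).permMatrix ℂ * star ((Equiv.swap (0 : Fin 2) 1).permMatrix ℂ) = 1 :=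
        mem_unitaryGroup_iff.1 (perm_unitary _)
      rw [diag_perm, Matrix.mul_assoc, hsw, Matrix.mul_one]
      apply congrArg
      funext i; fin_cases i
      · show a = f 1
        exact h1.symm
      · show b = f 0
        exact h0.symm
  have hfM : diagonal f = star V * M * V := by
    rw [hf]
    calc diagonal f = (star V * V) * diagonal f * (star V * V) := by
          rw [hVs', Matrix.one_mul, Matrix.mul_one]
      _ = _ := by simp only [Matrix.mul_assoc]
  refine ⟨Z * star V, Z * star V * W, mul_mem hZ (Unitary.star_mem hV),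
    mul_mem (mul_mem hZ (Unitary.star_mem hV)) hW, ?_⟩
  rw [hfin, hfM, hM]
  have hs1 : star (Z * star V) = V * star Z := by rw [star_mul, star_star]
  have hs2 : star (Z * star V * W) = star W * (V * star Z) := by rw [star_mul, hs1]
  have hZs' : star Z * Z = 1 := mem_unitaryGroup_iff'.1 hZ
  rw [hs1, hs2]
  calc Z * (star V * (diagonal ![1, p] * (W * diagonal ![y, w] * star W)) * V) * star Z
      = Z * star V * diagonal ![1, p] * (W * diagonal ![y, w] * star W) * (V * star Z) := by
        simp only [Matrix.mul_assoc]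
    _ = Z * star V * diagonal ![1, p] * (V * (star Z * Z) * star V) * (W * diagonal ![y, w] * star W) *
        (V * star Z) := by
        rw [hZs', Matrix.mul_one, hVs, Matrix.mul_one]
    _ = _ := by simp only [Matrix.mul_assoc]


theorem base4 {a b y d e r : ℂ} (ha : ‖a‖ = 1) (hb : ‖b‖ = 1) (hy : ‖y‖ = 1) (hd : ‖d‖ = 1)
    (he : ‖e‖ = 1) (hr : ‖r‖ = 1) (hr2 : r * r = a * b)
    (hin : (a * star r).re ∈ Set.uIcc (y * star r).re (star d * star r).re) :
    GoodM true (a ::ₘ b ::ₘ d ::ₘ e ::ₘ 0) y (a * b * d * e * star y) := by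
  obtain ⟨U, V, hU, hV, hUV⟩ := block ha hb hy (norm_star' hd) hr hr2 hin
  rw [star_star] at hUV
  set p : ℂ := a * b * (star y * d) with hp
  have hpn : ‖p‖ = 1 := by
    rw [hp]; simp only [norm_mul, norm_star', ha, hb, hy, hd, one_mul]
  have up := unit_conj hpn
  have ud := unit_conj hd
  set τ : Perm (Fin 2 ⊕ Fin 2) := Equiv.swap (Sum.inl 1) (Sum.inr 1) with hτ
  set σ : Perm (Fin 2 ⊕ Fin 2) := Equiv.swap (Sum.inl 1) (Sum.inr 0) with hσ
  refine ⟨Fin 2 ⊕ Fin 2, inferInstance, inferInstance, Sum.elim ![a, b] ![d, e], ?_, ⟨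
    fromBlocks U 0 0 1, fromBlocks V 0 0 1, Sum.elim ![1, p] ![1, star p],
    Sum.elim ![y, star d] ![d, e * p], τ, σ, Sum.inl 0, Sum.inr 1, fromBlocks_unitary hU (one_mem _),
    fromBlocks_unitary hV (one_mem _), ?_, ?_, ?_, ?_, ?_, ?_, ?_, ?_, ?_, ?_, ?_, ?_, ?_, ?_, ?_⟩⟩
  · have : (Finset.univ : Finset (Fin 2 ⊕ Fin 2)).val =
        (Finset.univ : Finset (Fin 2)).val.map Sum.inl + (Finset.univ : Finset (Fin 2)).val.map Sum.inr := rfl
    rw [this, Multiset.map_add, Multiset.map_map, Multiset.map_map]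
    have e1 : (Sum.elim ![a, b] ![d, e]) ∘ Sum.inl = ![a, b] := by funext; rfl
    have e2 : (Sum.elim ![a, b] ![d, e]) ∘ Sum.inr = ![d, e] := by funext; rfl
    have e3 : ∀ u v : ℂ, Multiset.map ![u, v] (Finset.univ : Finset (Fin 2)).val = u ::ₘ v ::ₘ 0 := by
      intro u v
      simp [Fin.univ_val_map]
      rfl
    rw [e1, e2, e3, e3, Multiset.cons_add, Multiset.cons_add, zero_add]
  · rintro (i | i) <;> fin_cases i
    · exact norm_one
    · exact hpn
    · exact norm_one
    · exact norm_star' hpn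
  · rintro (i | i) <;> fin_cases i
    · exact hy
    · exact norm_star' hd
    · exact hd
    · show ‖e * p‖ = 1
      rw [norm_mul, he, hpn, one_mul]
  · rw [fromBlocks_prod, fromBlocks_prod, fromBlocks_multiply]
    simp only [Matrix.mul_zero, Matrix.zero_mul, add_zero, zero_add, Matrix.one_mul, star_one,
      Matrix.mul_one, diagonal_mul_diagonal]
    rw [← hUV, fromBlocks_diagonal]
    apply congrArg
    funext i
    rcases i with i | i
    · rfl
    · fin_cases i
      · show d = 1 * d
        rw [one_mul]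
      · show e = star p * (e * p)
        linear_combination (-e) * up
  · intro i; rw [hτ, Equiv.swap_apply_self]
  · intro i; rw [hσ, Equiv.swap_apply_self]
  · rintro (i | i) <;> fin_cases i
    · show Sum.elim ![1, p] ![1, star p] (τ (Sum.inl 0)) = star (1 : ℂ)
      rw [hτ, Equiv.swap_apply_of_ne_of_ne (by simp) (by simp), star_one]; rfl
    · show Sum.elim ![1, p] ![1, star p] (τ (Sum.inl 1)) = star p
      rw [hτ, Equiv.swap_apply_left]; rfl
    · show Sum.elim ![1, p] ![1, star p] (τ (Sum.inr 0)) = star (1 : ℂ)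
      rw [hτ, Equiv.swap_apply_of_ne_of_ne (by simp) (by simp), star_one]; rfl
    · show Sum.elim ![1, p] ![1, star p] (τ (Sum.inr 1)) = star (star p)
      rw [hτ, Equiv.swap_apply_right, star_star]; rfl
  · rw [Fintype.prod_sum_type, Fin.prod_univ_two, Fin.prod_univ_two]
    show (1 * p) * (1 * star p) = 1
    rw [one_mul, one_mul, up]
  · simp
  · rw [hσ, Equiv.swap_apply_of_ne_of_ne (by simp) (by simp)]
  · rw [hσ, Equiv.swap_apply_of_ne_of_ne (by simp) (by simp)]
  · rfl
  · show e * p = _
    rw [hp]; ring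
  · rintro (i | i) hi hi' <;> fin_cases i
    · exact absurd rfl hi
    · show Sum.elim ![y, star d] ![d, e * p] (σ (Sum.inl 1)) = star (star d)
      rw [hσ, Equiv.swap_apply_left, star_star]; rfl
    · show Sum.elim ![y, star d] ![d, e * p] (σ (Sum.inr 0)) = star d
      rw [hσ, Equiv.swap_apply_right]; rfl
    · exact absurd rfl hi'
  · intro _
    exact ⟨Sum.inl 0, by rw [hτ, Equiv.swap_apply_of_ne_of_ne (by simp) (by simp)]⟩
  · intro h; cases h

end Pool.Q21.SU
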