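import Pool.Agent.Q21.SU.Base

set_option autoImplicit false

namespace Pool.Q21.SU

open Matrix Equiv

/-- a product of four involutions of the special unitary group -/
def Four {κ : Type} [Fintype κ] [DecidableEq κ] (M : Matrix κ κ ℂ) : Prop :=
  ∃ P Q : Matrix κ κ ℂ, Two P ∧ Two Q ∧ M = P * Q

theorem exists_equiv {κ ι : Type} [Fintype κ] [Fintype ι] (f : κ → ℂ) (g : ι → ℂ)
    (h : Multiset.map f Finset.univ.val = Multiset.map g Finset.univ.val) :
    ∃ e : ι ≃ κ, ∀ i, g i = f (e i) := by
  classical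
  have hc : ∀ z : ℂ, Nonempty ({i // g i = z} ≃ {i // f i = z}) := by
    intro z
    rw [← Fintype.card_eq, Fintype.card_subtype, Fintype.card_subtype]
    have h1 : Multiset.count z (Multiset.map f Finset.univ.val) =
        Multiset.count z (Multiset.map g Finset.univ.val) := by rw [h]
    rw [Multiset.count_map, Multiset.count_map] at h1
    have h2 : ∀ {α : Type} [Fintype α] (u : α → ℂ),
        (Finset.univ.filter (fun i => u i = z)).card = (Multiset.filter (fun a => z = u a) Finset.univ.val).card := by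
      intro α _ u
      rw [Finset.card_def, Finset.filter_val]
      apply congrArg
      apply Multiset.filter_congr
      intro x _
      exact eq_comm
    rw [h2, h2]
    exact h1.symm
  let e := fun z => Classical.choice (hc z)
  let E : ι ≃ κ := (Equiv.sigmaFiberEquiv g).symm.trans
    ((Equiv.sigmaCongrRight e).trans (Equiv.sigmaFiberEquiv f))
  refine ⟨E, fun i => ?_⟩
  have : E i = ((e (g i) ⟨i, rfl⟩ : {j // f j = g i}) : κ) := rfl
  rw [this]
  exact (e (g i) ⟨i, rfl⟩).2.symm

theorem Two.reindex {κ ι : Type} [Fintype κ] [DecidableEq κ] [Fintype ι] [DecidableEq ι]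
    (e : ι ≃ κ) {M : Matrix κ κ ℂ} (h : Two M) : Two (M.submatrix e e) := by
  obtain ⟨R, hR, S, hS, hRR, hSS, rfl⟩ := h
  have key : ∀ X Y : Matrix κ κ ℂ, (X * Y).submatrix e e = X.submatrix e e * Y.submatrix e e := by
    intro X Y
    rw [Matrix.submatrix_mul_equiv]
  have hmem : ∀ X ∈ specialUnitaryGroup κ ℂ, X.submatrix e e ∈ specialUnitaryGroup ι ℂ := by
    intro X hX
    rw [mem_specialUnitaryGroup_iff, mem_unitaryGroup_iff] at hX ⊢
    refine ⟨?_, by rw [Matrix.det_submatrix_equiv_self]; exact hX.2⟩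
    have : star (X.submatrix e e) = (star X).submatrix e e := by
      rw [star_eq_conjTranspose, star_eq_conjTranspose, Matrix.conjTranspose_submatrix]
    rw [this, ← key, hX.1, Matrix.submatrix_one_equiv]
  refine ⟨R.submatrix e e, hmem R hR, S.submatrix e e, hmem S hS, ?_, ?_, key R S⟩
  · rw [← key, hRR, Matrix.submatrix_one_equiv]
  · rw [← key, hSS, Matrix.submatrix_one_equiv]

theorem Four.reindex {κ ι : Type} [Fintype κ] [DecidableEq κ] [Fintype ι] [DecidableEq ι]
    (e : ι ≃ κ) {M : Matrix κ κ ℂ} (h : Four M) : Four (M.submatrix e e) := by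
  obtain ⟨P, Q, hP, hQ, rfl⟩ := h
  exact ⟨_, _, hP.reindex e, hQ.reindex e, by rw [Matrix.submatrix_mul_equiv]⟩

/-- the even case -/
theorem GoodM.finish {b : Bool} {s : Multiset ℂ} {z0 z1 : ℂ} (h : GoodM b s z0 z1)
    (h0 : star z0 = z0) (h1 : star z1 = z1) (hs : s.prod = 1)
    (hb : b = false → Even (Multiset.card s / 2)) {ι : Type} [Fintype ι] [DecidableEq ι] (d : ι → ℂ)
    (hd : Multiset.map d Finset.univ.val = s) : Four (diagonal d) := by
  obtain ⟨κ, i1, i2, c, hc, ⟨U, V, p, q, τ, σ, k0, k1, a1, a2, a3, a4, a5, a6, a7, a8, a9, a10, a11,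
    a12, a13, a14, a15, a16, a17⟩⟩ := h
  have hcard : Multiset.card s = Fintype.card κ := by
    rw [← hc, Multiset.card_map]; rfl
  obtain ⟨e, he⟩ := exists_equiv c d (hc.trans hd.symm)
  have hM : diagonal d = (diagonal c).submatrix e e := by
    rw [Matrix.submatrix_diagonal_equiv]
    apply congrArg
    funext i
    exact he i
  rw [hM]
  apply Four.reindex
  have hdet : (diagonal c).det = (∏ i, p i) * ∏ i, q i := by
    rw [a5]
    simp only [det_mul, det_diagonal]
    have u1 : U.det * (star U).det = 1 := by rw [← det_mul, mem_unitaryGroup_iff.1 a1, det_one]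
    have u2 : V.det * (star V).det = 1 := by rw [← det_mul, mem_unitaryGroup_iff.1 a2, det_one]
    linear_combination ((∏ i, p i) * (∏ i, q i) * (V.det * (star V).det)) * u1 +
      ((∏ i, p i) * ∏ i, q i) * u2
  have hcp : (diagonal c).det = 1 := by
    rw [det_diagonal, Finset.prod_eq_multiset_prod, hc, hs]
  refine ⟨_, _, Two.conj (two_diagonal p a3 τ a6 a8 a9 ?_) U a1,
    Two.conj (two_diagonal q a4 σ a7 ?_ ?_ (Or.inl ⟨k0, a11⟩)) V a2, a5⟩
  · cases b with
    | true => exact Or.inl (a16 rfl)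
    | false =>
      right
      rw [a17 rfl]
      have := hb rfl
      rw [hcard] at this
      exact this.neg_one_pow
  · intro i
    by_cases hi : i = k0
    · rw [hi, a11, a13, h0]
    · by_cases hi' : i = k1
      · rw [hi', a12, a14, h1]
      · exact a15 i hi hi'
  · rw [hcp, a9, one_mul] at hdet
    exact hdet.symm

/-- the odd case -/
theorem GoodM.close {b : Bool} {s : Multiset ℂ} {z0 z1 : ℂ} (h : GoodM b s z0 z1)
    (h0 : star z0 = z0) (hs : s.prod * star z1 = 1)
    {ι : Type} [Fintype ι] [DecidableEq ι] (d : ι → ℂ)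
    (hd : Multiset.map d Finset.univ.val = star z1 ::ₘ s) : Four (diagonal d) := by
  obtain ⟨κ, i1, i2, c, hc, ⟨U, V, p, q, τ, σ, k0, k1, a1, a2, a3, a4, a5, a6, a7, a8, a9, a10, a11,
    a12, a13, a14, a15, a16, a17⟩⟩ := h
  have hz1 : ‖z1‖ = 1 := by rw [← a14]; exact a4 k1
  have hc' : Multiset.map (Sum.elim c (fun _ : Fin 1 => star z1)) Finset.univ.val = star z1 ::ₘ s := by
    have : (Finset.univ : Finset (κ ⊕ Fin 1)).val =
        (Finset.univ : Finset κ).val.map Sum.inl + (Finset.univ : Finset (Fin 1)).val.map Sum.inr := rfl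
    rw [this, Multiset.map_add, Multiset.map_map, Multiset.map_map]
    have e1 : (Sum.elim c (fun _ : Fin 1 => star z1)) ∘ Sum.inl = c := by funext; rfl
    have e2 : (Sum.elim c (fun _ : Fin 1 => star z1)) ∘ Sum.inr = fun _ => star z1 := by funext; rfl
    rw [e1, e2, hc]
    have : Multiset.map (fun _ : Fin 1 => star z1) Finset.univ.val = star z1 ::ₘ 0 := by
      simp
    rw [this, add_comm]; simp
  obtain ⟨e, he⟩ := exists_equiv _ d (hc'.trans hd.symm)
  have hM : diagonal d = (diagonal (Sum.elim c (fun _ : Fin 1 => star z1))).submatrix e e := by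
    rw [Matrix.submatrix_diagonal_equiv]
    apply congrArg
    funext i
    exact he i
  rw [hM]
  apply Four.reindex
  set σ0 : Perm (κ ⊕ Fin 1) := Equiv.sumCongr σ (Equiv.refl _) with hσ0
  set σ' : Perm (κ ⊕ Fin 1) := σ0 * Equiv.swap (Sum.inl k1) (Sum.inr 0) with hσ'
  set τ' : Perm (κ ⊕ Fin 1) := Equiv.sumCongr τ (Equiv.refl _) with hτ'
  have s0l : ∀ k, σ0 (Sum.inl k) = Sum.inl (σ k) := fun k => rfl
  have s0r : ∀ k, σ0 (Sum.inr k) = Sum.inr k := fun k => rfl
  have sl1 : σ' (Sum.inl k1) = Sum.inr 0 := by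
    rw [hσ', Perm.mul_apply, Equiv.swap_apply_left, s0r]
  have sr0 : σ' (Sum.inr 0) = Sum.inl k1 := by
    rw [hσ', Perm.mul_apply, Equiv.swap_apply_right, s0l, a12]
  have sl : ∀ k, k ≠ k1 → σ' (Sum.inl k) = Sum.inl (σ k) := by
    intro k hk
    rw [hσ', Perm.mul_apply, Equiv.swap_apply_of_ne_of_ne (by simpa using hk) (by simp), s0l]
  have hσk : ∀ k, k ≠ k1 → σ k ≠ k1 := by
    intro k hk hh
    apply hk
    have := a7 k
    rw [hh, a12] at this
    exact this.symm
  have hA5 : diagonal (Sum.elim c (fun _ : Fin 1 => star z1)) =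
      (fromBlocks U 0 0 1 * diagonal (Sum.elim p (fun _ : Fin 1 => 1)) * star (fromBlocks U 0 0 1)) *
      (fromBlocks V 0 0 1 * diagonal (Sum.elim q (fun _ : Fin 1 => star z1)) *
        star (fromBlocks V 0 0 1)) := by
    rw [fromBlocks_prod, fromBlocks_prod, fromBlocks_multiply]
    simp only [Matrix.mul_zero, Matrix.zero_mul, add_zero, zero_add, Matrix.one_mul, star_one,
      Matrix.mul_one, diagonal_mul_diagonal]
    rw [← a5, fromBlocks_diagonal]
    apply congrArg
    funext i
    rcases i with i | i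
    · rfl
    · show star z1 = 1 * star z1
      rw [one_mul]
  have hUu := fromBlocks_unitary a1 (one_mem (unitaryGroup (Fin 1) ℂ))
  have hVu := fromBlocks_unitary a2 (one_mem (unitaryGroup (Fin 1) ℂ))
  have hdet : (diagonal c).det = (∏ i, p i) * ∏ i, q i := by
    rw [a5]
    simp only [det_mul, det_diagonal]
    have u1 : U.det * (star U).det = 1 := by rw [← det_mul, mem_unitaryGroup_iff.1 a1, det_one]
    have u2 : V.det * (star V).det = 1 := by rw [← det_mul, mem_unitaryGroup_iff.1 a2, det_one]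
    linear_combination ((∏ i, p i) * (∏ i, q i) * (V.det * (star V).det)) * u1 +
      ((∏ i, p i) * ∏ i, q i) * u2
  have hcp : (diagonal c).det = s.prod := by
    rw [det_diagonal, Finset.prod_eq_multiset_prod, hc]
  refine ⟨_, _, Two.conj (two_diagonal (Sum.elim p (fun _ : Fin 1 => 1)) ?_ τ' ?_ ?_ ?_
    (Or.inl ⟨Sum.inr 0, rfl⟩)) _ hUu,
    Two.conj (two_diagonal (Sum.elim q (fun _ : Fin 1 => star z1)) ?_ σ' ?_ ?_ ?_
      (Or.inl ⟨Sum.inl k0, by rw [sl k0 a10, a11]⟩)) _ hVu, hA5⟩
  · rintro (i | i)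
    · exact a3 i
    · exact norm_one
  · rintro (i | i)
    · show Sum.inl (τ (τ i)) = _
      rw [a6]
    · rfl
  · rintro (i | i)
    · exact a8 i
    · show (1 : ℂ) = star 1
      rw [star_one]
  · rw [Fintype.prod_sum_type]; simp [a9]
  · rintro (i | i)
    · exact a4 i
    · exact norm_star' hz1
  · rintro (i | i)
    · by_cases hi : i = k1
      · subst hi
        rw [sl1, sr0]
      · rw [sl i hi, sl _ (hσk i hi), a7]
    · have : i = 0 := Subsingleton.elim _ _
      subst this
      rw [sr0, sl1]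
  · rintro (i | i)
    · by_cases hik : i = k1
      · subst hik
        rw [sl1]
        show star z1 = star (q i)
        rw [a14]
      · rw [sl i hik]
        by_cases hi0 : i = k0
        · rw [hi0, a11]
          show q k0 = star (q k0)
          rw [a13, h0]
        · exact a15 i hi0 hik
    · have : i = 0 := Subsingleton.elim _ _
      subst this
      rw [sr0]
      show q k1 = star (star z1)
      rw [star_star, a14]
  · rw [Fintype.prod_sum_type]
    simp only [Sum.elim_inl, Sum.elim_inr, Fin.prod_univ_one]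
    rw [hcp, a9, one_mul] at hdet
    rw [← hdet, hs]

end Pool.Q21.SU
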