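import Pool.Agent.Q21.SU.Inv

set_option autoImplicit false

namespace Pool.Q21.SU

open Matrix Equiv

/-- `diagonal c = P Q` with `P`, `Q` unitarily equivalent to diagonal matrices whose entries are matched
with their conjugates, except for two entries `z0`, `z1` of `Q`. -/
structure Good (b : Bool) (κ : Type) [Fintype κ] [DecidableEq κ] (c : κ → ℂ) (z0 z1 : ℂ) : Prop where
  ex : ∃ (U V : Matrix κ κ ℂ) (p q : κ → ℂ) (τ σ : Perm κ) (k0 k1 : κ),
    U ∈ unitaryGroup κ ℂ ∧ V ∈ unitaryGroup κ ℂ ∧ (∀ i, ‖p i‖ = 1) ∧ (∀ i, ‖q i‖ = 1) ∧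
    diagonal c = (U * diagonal p * star U) * (V * diagonal q * star V) ∧
    (∀ i, τ (τ i) = i) ∧ (∀ i, σ (σ i) = i) ∧ (∀ i, p (τ i) = star (p i)) ∧ ∏ i, p i = 1 ∧
    k0 ≠ k1 ∧ σ k0 = k0 ∧ σ k1 = k1 ∧ q k0 = z0 ∧ q k1 = z1 ∧
    (∀ i, i ≠ k0 → i ≠ k1 → q (σ i) = star (q i)) ∧
    (b = true → ∃ i, τ i = i) ∧ (b = false → Perm.sign τ = (-1) ^ (Fintype.card κ / 2))

/-- the multiset version -/
def GoodM (b : Bool) (s : Multiset ℂ) (z0 z1 : ℂ) : Prop :=
  ∃ (κ : Type) (_ : Fintype κ) (_ : DecidableEq κ) (c : κ → ℂ),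
    Multiset.map c Finset.univ.val = s ∧ Good b κ c z0 z1

theorem GoodM.symm {b : Bool} {s : Multiset ℂ} {z0 z1 : ℂ} (h : GoodM b s z0 z1) :
    GoodM b s z1 z0 := by
  obtain ⟨κ, i1, i2, c, hc, ⟨U, V, p, q, τ, σ, k0, k1, h1, h2, h3, h4, h5, h6, h7, h8, h9, h10, h11,
    h12, h13, h14, h15, h16, h17⟩⟩ := h
  exact ⟨κ, i1, i2, c, hc, ⟨U, V, p, q, τ, σ, k1, k0, h1, h2, h3, h4, h5, h6, h7, h8, h9, h10.symm,
    h12, h11, h14, h13, fun i hi hi' => h15 i hi' hi, h16, h17⟩⟩

theorem fromBlocks_unitary {κ ι : Type} [Fintype κ] [DecidableEq κ] [Fintype ι] [DecidableEq ι]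
    {U : Matrix κ κ ℂ} {W : Matrix ι ι ℂ} (hU : U ∈ unitaryGroup κ ℂ) (hW : W ∈ unitaryGroup ι ℂ) :
    fromBlocks U 0 0 W ∈ unitaryGroup (κ ⊕ ι) ℂ := by
  rw [mem_unitaryGroup_iff] at *
  rw [star_eq_conjTranspose, fromBlocks_conjTranspose, fromBlocks_multiply]
  rw [star_eq_conjTranspose] at hU hW
  simp [hU, hW]

theorem fromBlocks_prod {κ ι : Type} [Fintype κ] [DecidableEq κ] [Fintype ι] [DecidableEq ι]
    (U : Matrix κ κ ℂ) (W : Matrix ι ι ℂ) (p : κ → ℂ) (r : ι → ℂ) :
    fromBlocks U 0 0 W * diagonal (Sum.elim p r) * star (fromBlocks U 0 0 W) =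
      fromBlocks (U * diagonal p * star U) 0 0 (W * diagonal r * star W) := by
  rw [star_eq_conjTranspose, fromBlocks_conjTranspose]
  have : diagonal (Sum.elim p r) = fromBlocks (diagonal p) 0 0 (diagonal r) := by
    rw [fromBlocks_diagonal]
  rw [this, fromBlocks_multiply, fromBlocks_multiply]
  simp [star_eq_conjTranspose]

theorem norm_star' {z : ℂ} (hz : ‖z‖ = 1) : ‖star z‖ = 1 := by
  rw [norm_star, hz]

theorem GoodM.addPair {b : Bool} {s : Multiset ℂ} {z0 z1 : ℂ} (h : GoodM b s z0 z1) {d e : ℂ}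
    (hd : ‖d‖ = 1) (he : ‖e‖ = 1) : GoodM b (d ::ₘ e ::ₘ s) z0 (d * e * z1) := by
  obtain ⟨κ, i1, i2, c, hc, ⟨U, V, p, q, τ, σ, k0, k1, h1, h2, h3, h4, h5, h6, h7, h8, h9, h10, h11,
    h12, h13, h14, h15, h16, h17⟩⟩ := h
  have hz1 : ‖z1‖ = 1 := by rw [← h14]; exact h4 k1
  have u1 : z1 * star z1 = 1 := unit_conj hz1
  have ud : d * star d = 1 := unit_conj hd
  have ue : e * star e = 1 := unit_conj he
  set x : ℂ := d * z1 with hx
  have hxn : ‖x‖ = 1 := by rw [hx, norm_mul, hd, hz1, one_mul]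
  -- the new matching of `Q`
  set σ0 : Perm (κ ⊕ Fin 2) := Equiv.sumCongr σ (Equiv.refl _) with hσ0
  set σ' : Perm (κ ⊕ Fin 2) := σ0 * Equiv.swap (Sum.inl k1) (Sum.inr 0) with hσ'
  set τ' : Perm (κ ⊕ Fin 2) := Equiv.Perm.sumCongr τ (Equiv.swap 0 1) with hτ'
  have s0l : ∀ k, σ0 (Sum.inl k) = Sum.inl (σ k) := fun k => rfl
  have s0r : ∀ k, σ0 (Sum.inr k) = Sum.inr k := fun k => rfl
  have sl1 : σ' (Sum.inl k1) = Sum.inr 0 := by
    rw [hσ', Perm.mul_apply, Equiv.swap_apply_left, s0r]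
  have sr0 : σ' (Sum.inr 0) = Sum.inl k1 := by
    rw [hσ', Perm.mul_apply, Equiv.swap_apply_right, s0l, h12]
  have sr1 : σ' (Sum.inr 1) = Sum.inr 1 := by
    rw [hσ', Perm.mul_apply, Equiv.swap_apply_of_ne_of_ne (by simp) (by simp), s0r]
  have sl : ∀ k, k ≠ k1 → σ' (Sum.inl k) = Sum.inl (σ k) := by
    intro k hk
    rw [hσ', Perm.mul_apply, Equiv.swap_apply_of_ne_of_ne (by simpa using hk) (by simp), s0l]
  have hσk : ∀ k, k ≠ k1 → σ k ≠ k1 := by
    intro k hk hh
    apply hk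
    have := h7 k
    rw [hh, h12] at this
    exact this.symm
  refine ⟨κ ⊕ Fin 2, inferInstance, inferInstance, Sum.elim c ![d, e], ?_, ⟨
    fromBlocks U 0 0 1, fromBlocks V 0 0 1, Sum.elim p ![x, star x], Sum.elim q ![star z1, d * e * z1],
    τ', σ', Sum.inl k0, Sum.inr 1, ?_, ?_, ?_, ?_, ?_, ?_, ?_, ?_, ?_, ?_, ?_, ?_, ?_, ?_, ?_, ?_, ?_⟩⟩
  · have : (Finset.univ : Finset (κ ⊕ Fin 2)).val =
        (Finset.univ : Finset κ).val.map Sum.inl + (Finset.univ : Finset (Fin 2)).val.map Sum.inr := rfl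
    rw [this, Multiset.map_add, Multiset.map_map, Multiset.map_map]
    have e1 : (Sum.elim c ![d, e]) ∘ Sum.inl = c := by funext; rfl
    have e2 : (Sum.elim c ![d, e]) ∘ Sum.inr = ![d, e] := by funext; rfl
    rw [e1, e2, hc]
    have e3 : Multiset.map ![d, e] (Finset.univ : Finset (Fin 2)).val = d ::ₘ e ::ₘ 0 := by
      simp [Fin.univ_val_map]
      rfl
    rw [e3, add_comm]
    simp
  · exact fromBlocks_unitary h1 (one_mem _)
  · exact fromBlocks_unitary h2 (one_mem _)
  · rintro (i | i)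
    · exact h3 i
    · fin_cases i
      · exact hxn
      · exact norm_star' hxn
  · rintro (i | i)
    · exact h4 i
    · fin_cases i
      · exact norm_star' hz1
      · show ‖d * e * z1‖ = 1
        rw [norm_mul, norm_mul, hd, he, hz1]; norm_num
  · rw [fromBlocks_prod, fromBlocks_prod, fromBlocks_multiply]
    simp only [Matrix.mul_zero, Matrix.zero_mul, add_zero, zero_add, Matrix.one_mul, star_one,
      Matrix.mul_one, diagonal_mul_diagonal]
    rw [← h5, fromBlocks_diagonal]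
    apply congrArg
    funext i
    rcases i with i | i
    · rfl
    · fin_cases i
      · show d = x * star z1
        rw [hx, mul_assoc, u1, mul_one]
      · show e = star x * (d * e * z1)
        rw [hx, star_mul']
        calc e = e * (d * star d) * (z1 * star z1) := by rw [ud, u1]; ring
          _ = _ := by ring
  · rintro (i | i)
    · show Sum.inl (τ (τ i)) = _
      rw [h6]
    · show Sum.inr ((Equiv.swap 0 1) ((Equiv.swap 0 1) i)) = _
      rw [Equiv.swap_apply_self]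
  · rintro (i | i)
    · by_cases hi : i = k1
      · subst hi
        rw [sl1, sr0]
      · rw [sl i hi, sl _ (hσk i hi), h7]
    · fin_cases i
      · show σ' (σ' (Sum.inr 0)) = Sum.inr 0
        rw [sr0, sl1]
      · show σ' (σ' (Sum.inr 1)) = Sum.inr 1
        rw [sr1, sr1]
  · rintro (i | i)
    · exact h8 i
    · fin_cases i
      · rfl
      · show x = star (star x)
        rw [star_star]
  · rw [Fintype.prod_sum_type]
    simp only [Sum.elim_inl, Sum.elim_inr, h9, one_mul, Fin.prod_univ_two]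
    exact unit_conj hxn
  · simp
  · rw [sl k0 h10, h11]
  · exact sr1
  · exact h13
  · rfl
  · rintro (i | i) hi hi'
    · have hik0 : i ≠ k0 := fun h => hi (by rw [h])
      by_cases hik : i = k1
      · subst hik
        rw [sl1]
        show star z1 = star (q i)
        rw [h14]
      · rw [sl i hik]
        exact h15 i hik0 hik
    · fin_cases i
      · show Sum.elim q _ (σ' (Sum.inr 0)) = star (star z1)
        rw [sr0, star_star]
        exact h14
      · exact absurd rfl hi'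
  · intro hb
    obtain ⟨i, hi⟩ := h16 hb
    exact ⟨Sum.inl i, by show Sum.inl (τ i) = _; rw [hi]⟩
  · intro hb
    rw [hτ', Perm.sign_sumCongr, h17 hb, Perm.sign_swap (by decide)]
    have : Fintype.card (κ ⊕ Fin 2) / 2 = Fintype.card κ / 2 + 1 := by
      rw [Fintype.card_sum, Fintype.card_fin]; omega
    rw [this, pow_succ]

theorem GoodM.addEven {b : Bool} {z0 : ℂ} (t : Multiset ℂ) : ∀ {s : Multiset ℂ} {z1 : ℂ},
    GoodM b s z0 z1 → Even (Multiset.card t) → (∀ d ∈ t, ‖d‖ = 1) →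
    GoodM b (t + s) z0 (t.prod * z1) := by
  induction t using Multiset.strongInductionOn with
  | ih t ih =>
    intro s z1 h he hn
    rcases Multiset.empty_or_exists_mem t with h0 | ⟨d, hd⟩
    · subst h0; simpa using h
    · obtain ⟨t1, rfl⟩ := Multiset.exists_cons_of_mem hd
      rcases Multiset.empty_or_exists_mem t1 with h1 | ⟨e, he'⟩
      · subst h1
        simp at he
      · obtain ⟨t2, rfl⟩ := Multiset.exists_cons_of_mem he'
        have hlt : t2 < d ::ₘ e ::ₘ t2 :=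
          lt_trans (Multiset.lt_cons_self _ _) (Multiset.lt_cons_self _ _)
        have hadd := GoodM.addPair h (hn d (by simp)) (hn e (by simp))
        have he2 : Even (Multiset.card t2) := by
          simp only [Multiset.card_cons] at he
          obtain ⟨r, hr⟩ := he
          exact ⟨r - 1, by omega⟩
        have := ih t2 hlt hadd he2 (fun x hx => hn x (by simp [hx]))
        have e1 : t2 + d ::ₘ e ::ₘ s = (d ::ₘ e ::ₘ t2) + s := by simp
        have e2 : t2.prod * (d * e * z1) = (d ::ₘ e ::ₘ t2).prod * z1 := by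
          simp only [Multiset.prod_cons]; ring
        rw [e1, e2] at this
        exact this

end Pool.Q21.SU
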