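import Mathlib

set_option autoImplicit false

namespace Pool.Q21.SU

open Matrix Equiv

variable {κ : Type} [Fintype κ] [DecidableEq κ]

/-- a product of two involutions of the special unitary group -/
def Two (M : Matrix κ κ ℂ) : Prop :=
  ∃ R ∈ specialUnitaryGroup κ ℂ, ∃ S ∈ specialUnitaryGroup κ ℂ, R * R = 1 ∧ S * S = 1 ∧ M = R * S

/-- conjugation by a unitary matrix -/
theorem Two.conj {M : Matrix κ κ ℂ} (h : Two M) (U : Matrix κ κ ℂ) (hU : U ∈ unitaryGroup κ ℂ) :
    Two (U * M * star U) := by
  obtain ⟨R, hR, S, hS, hRR, hSS, rfl⟩ := h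
  have h1 : star U * U = 1 := mem_unitaryGroup_iff'.1 hU
  have h2 : U * star U = 1 := mem_unitaryGroup_iff.1 hU
  have key : ∀ X Y : Matrix κ κ ℂ, (U * X * star U) * (U * Y * star U) = U * (X * Y) * star U := by
    intro X Y
    calc (U * X * star U) * (U * Y * star U) = U * X * (star U * U) * Y * star U := by
          simp only [Matrix.mul_assoc]
      _ = U * (X * Y) * star U := by rw [h1]; simp only [Matrix.mul_assoc, Matrix.mul_one]
  have hmem : ∀ X ∈ specialUnitaryGroup κ ℂ, U * X * star U ∈ specialUnitaryGroup κ ℂ := by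
    intro X hX
    rw [mem_specialUnitaryGroup_iff] at hX ⊢
    refine ⟨mul_mem (mul_mem hU hX.1) (Unitary.star_mem hU), ?_⟩
    rw [det_mul, det_mul, hX.2, mul_one, ← det_mul, h2, det_one]
  refine ⟨U * R * star U, hmem R hR, U * S * star U, hmem S hS, ?_, ?_, ?_⟩
  · rw [key, hRR, Matrix.mul_one, h2]
  · rw [key, hSS, Matrix.mul_one, h2]
  · rw [key]

theorem unit_conj {z : ℂ} (hz : ‖z‖ = 1) : z * star z = 1 := by
  rw [Complex.star_def, Complex.mul_conj, Complex.normSq_eq_norm_sq, hz]; norm_num

theorem diag_perm (f : κ → ℂ) (τ : Perm κ) :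
    τ.permMatrix ℂ * diagonal f = diagonal (fun i => f (τ i)) * τ.permMatrix ℂ := by
  ext i j
  rw [Matrix.mul_diagonal, Matrix.diagonal_mul]
  by_cases h : τ i = j
  · subst h
    rw [mul_comm]
  · have : (τ.permMatrix ℂ) i j = 0 := by
      simp [Equiv.Perm.permMatrix, PEquiv.toMatrix_apply, Equiv.toPEquiv_apply, h]
    rw [this]; simp

theorem perm_sq (τ : Perm κ) (h : ∀ i, τ (τ i) = i) : τ.permMatrix ℂ * τ.permMatrix ℂ = 1 := by
  have h1 : τ * τ = 1 := by ext i; simp [h]
  rw [← Matrix.permMatrix_mul, h1, Matrix.permMatrix_one]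

theorem perm_unitary (τ : Perm κ) : τ.permMatrix ℂ ∈ unitaryGroup κ ℂ := by
  rw [mem_unitaryGroup_iff, star_eq_conjTranspose, Matrix.conjTranspose_permMatrix,
    ← Matrix.permMatrix_mul, inv_mul_cancel, Matrix.permMatrix_one]

theorem diag_unitary (f : κ → ℂ) (hf : ∀ i, ‖f i‖ = 1) : diagonal f ∈ unitaryGroup κ ℂ := by
  rw [mem_unitaryGroup_iff, star_eq_conjTranspose, diagonal_conjTranspose, diagonal_mul_diagonal,
    ← diagonal_one]
  apply congrArg
  funext i
  exact unit_conj (hf i)

/-- a diagonal matrix with a matching of the entries with their conjugates -/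
theorem two_diagonal (p : κ → ℂ) (hp : ∀ i, ‖p i‖ = 1) (τ : Perm κ) (hτ : ∀ i, τ (τ i) = i)
    (hpτ : ∀ i, p (τ i) = star (p i)) (hprod : ∏ i, p i = 1)
    (hs : (∃ i, τ i = i) ∨ Perm.sign τ = 1) : Two (diagonal p) := by
  classical
  obtain ⟨s, hs1, hs2, hs3⟩ : ∃ s : κ → ℂ, (∀ i, s i * s i = 1) ∧ (∀ i, s (τ i) = s i) ∧
      (∏ i, s i) * ((Perm.sign τ : ℤˣ) : ℤ) = 1 := by
    rcases hs with ⟨i0, hi0⟩ | h
    · refine ⟨fun i => if i = i0 then (((Perm.sign τ : ℤˣ) : ℤ) : ℂ) else 1, ?_, ?_, ?_⟩
      · intro i
        by_cases hi : i = i0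
        · simp only [hi, if_true]
          rcases Int.units_eq_one_or (Perm.sign τ) with h | h <;> simp [h]
        · simp [hi]
      · intro i
        by_cases hi : i = i0
        · simp [hi, hi0]
        · have : τ i ≠ i0 := by
            intro h
            apply hi
            have := hτ i
            rw [h, hi0] at this
            exact this.symm
          simp [hi, this]
      · rw [Finset.prod_ite_eq']
        simp only [Finset.mem_univ, if_true]
        rcases Int.units_eq_one_or (Perm.sign τ) with h | h <;> simp [h]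
    · exact ⟨fun _ => 1, by simp, by simp, by simp [h]⟩
  have hsn : ∀ i, ‖s i‖ = 1 := by
    intro i
    have := congrArg norm (hs1 i)
    rw [norm_mul, norm_one] at this
    nlinarith [norm_nonneg (s i)]
  set R : Matrix κ κ ℂ := diagonal s * τ.permMatrix ℂ with hR
  have hRR : R * R = 1 := by
    calc R * R = diagonal s * (τ.permMatrix ℂ * diagonal s) * τ.permMatrix ℂ := by
          simp only [hR, Matrix.mul_assoc]
      _ = diagonal s * diagonal s * (τ.permMatrix ℂ * τ.permMatrix ℂ) := by
          rw [diag_perm]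
          simp only [hs2, Matrix.mul_assoc]
      _ = 1 := by
          rw [perm_sq τ hτ, Matrix.mul_one, diagonal_mul_diagonal, ← diagonal_one]
          apply congrArg
          funext i
          exact hs1 i
  have hRD : R * diagonal p * (R * diagonal p) = 1 := by
    calc R * diagonal p * (R * diagonal p) =
        diagonal s * (τ.permMatrix ℂ * diagonal p) * (R * diagonal p) := by
          simp only [hR, Matrix.mul_assoc]
      _ = diagonal s * diagonal (fun i => p (τ i)) * τ.permMatrix ℂ * (R * diagonal p) := by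
          rw [diag_perm]; simp only [Matrix.mul_assoc]
      _ = diagonal (fun i => p (τ i)) * (R * R) * diagonal p := by
          rw [hR]
          have : diagonal s * diagonal (fun i => p (τ i)) = diagonal (fun i => p (τ i)) * diagonal s := by
            rw [diagonal_mul_diagonal, diagonal_mul_diagonal]
            apply congrArg
            funext i
            ring
          rw [this]
          simp only [Matrix.mul_assoc]
      _ = 1 := by
          rw [hRR, Matrix.mul_one, diagonal_mul_diagonal, ← diagonal_one]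
          apply congrArg
          funext i
          rw [hpτ, mul_comm]
          exact unit_conj (hp i)
  have hRu : R ∈ unitaryGroup κ ℂ := mul_mem (diag_unitary s hsn) (perm_unitary τ)
  have hRdet : R.det = 1 := by
    rw [hR, det_mul, det_diagonal, Matrix.det_permutation]
    exact hs3
  refine ⟨R, mem_specialUnitaryGroup_iff.2 ⟨hRu, hRdet⟩, R * diagonal p,
    mem_specialUnitaryGroup_iff.2 ⟨mul_mem hRu (diag_unitary p hp), ?_⟩, hRR, hRD, ?_⟩
  · rw [det_mul, hRdet, det_diagonal, hprod, one_mul]
  · rw [← Matrix.mul_assoc, hRR, Matrix.one_mul]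

end Pool.Q21.SU
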