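import Pool.Agent.Q21.SU.Fin

set_option autoImplicit false

namespace Pool.Q21.SU

open Matrix Equiv

/-- the angle in `[0, 2π)` -/
noncomputable def ang (z : ℂ) : ℝ := if Complex.arg z < 0 then Complex.arg z + 2 * Real.pi else Complex.arg z

theorem ang_nonneg (z : ℂ) : 0 ≤ ang z := by
  unfold ang
  split_ifs with h
  · linarith [Complex.neg_pi_lt_arg z, Real.pi_pos]
  · linarith

theorem ang_lt (z : ℂ) : ang z < 2 * Real.pi := by
  unfold ang
  split_ifs with h
  · linarith
  · linarith [Complex.arg_le_pi z, Real.pi_pos]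

theorem exp_ang {z : ℂ} (hz : ‖z‖ = 1) : Complex.exp ((ang z : ℝ) * Complex.I) = z := by
  have h : Complex.exp (Complex.arg z * Complex.I) = z := by
    have := Complex.norm_mul_exp_arg_mul_I z
    rw [hz] at this
    simpa using this
  unfold ang
  split_ifs with h'
  · push_cast
    rw [add_mul, Complex.exp_add, h, Complex.exp_two_pi_mul_I, mul_one]
  · exact h

theorem norm_exp (x : ℝ) : ‖Complex.exp ((x : ℝ) * Complex.I)‖ = 1 := Complex.norm_exp_ofReal_mul_I x

theorem star_exp (x : ℝ) : star (Complex.exp ((x : ℝ) * Complex.I)) = Complex.exp (((-x : ℝ) : ℂ) * Complex.I) := by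
  rw [Complex.star_def, ← Complex.exp_conj]
  congr 1
  simp

theorem re_exp (x y : ℝ) : (Complex.exp ((x : ℝ) * Complex.I) * star (Complex.exp ((y : ℝ) * Complex.I))).re =
    Real.cos (x - y) := by
  rw [star_exp, ← Complex.exp_add]
  have : (x : ℂ) * Complex.I + ((-y : ℝ) : ℂ) * Complex.I = ((x - y : ℝ) : ℂ) * Complex.I := by
    push_cast; ring
  rw [this, Complex.exp_ofReal_mul_I_re]

theorem prod_exp (h : ℕ → ℝ) (T : Multiset ℕ) :
    (T.map (fun j => Complex.exp ((h j : ℝ) * Complex.I))).prod =
      Complex.exp (((T.map h).sum : ℝ) * Complex.I) := by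
  induction T using Multiset.induction_on with
  | empty => simp
  | cons a T ih =>
    rw [Multiset.map_cons, Multiset.map_cons, Multiset.prod_cons, Multiset.sum_cons, ih, ← Complex.exp_add]
    congr 1
    push_cast
    ring

theorem real_of_mul {w : ℂ} (hw : ‖w‖ = 1) (h : w * w = 1) : star w = w := by
  have u := unit_conj hw
  have hw0 : w ≠ 0 := by
    intro h0; rw [h0, norm_zero] at hw; exact zero_ne_one hw
  exact mul_left_cancel₀ hw0 (u.trans h.symm)

theorem norm_mprod (T : Multiset ℂ) (h : ∀ z ∈ T, ‖z‖ = 1) : ‖T.prod‖ = 1 := by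
  induction T using Multiset.induction_on with
  | empty => simp
  | cons a T ih =>
    rw [Multiset.prod_cons, norm_mul, h a (by simp), ih (fun z hz => h z (by simp [hz])), one_mul]

theorem cos_inner {a b y : ℝ} (ha : 0 ≤ a) (hb : 0 ≤ b) (ha' : a < 2 * Real.pi) (hb' : b < 2 * Real.pi)
    (h : (a - y) * (b - y) ≤ 0) : Real.cos ((a - b) / 2) ≤ Real.cos (y - (a + b) / 2) := by
  have e : Real.cos (y - (a + b) / 2) - Real.cos ((a - b) / 2) =
      2 * (Real.sin ((y - b) / 2) * Real.sin ((a - y) / 2)) := by
    rw [Real.cos_sub_cos]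
    have e1 : (y - (a + b) / 2 + (a - b) / 2) / 2 = (y - b) / 2 := by ring
    have e2 : (y - (a + b) / 2 - (a - b) / 2) / 2 = -((a - y) / 2) := by ring
    rw [e1, e2, Real.sin_neg]; ring
  have hs : 0 ≤ Real.sin ((y - b) / 2) * Real.sin ((a - y) / 2) := by
    rcases mul_nonpos_iff.1 h with ⟨h1, h2⟩ | ⟨h1, h2⟩
    · exact mul_nonneg (Real.sin_nonneg_of_nonneg_of_le_pi (by linarith) (by linarith))
        (Real.sin_nonneg_of_nonneg_of_le_pi (by linarith) (by linarith))
    · exact mul_nonneg_of_nonpos_of_nonpos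
        (Real.sin_nonpos_of_nonpos_of_neg_pi_le (by linarith) (by linarith))
        (Real.sin_nonpos_of_nonpos_of_neg_pi_le (by linarith) (by linarith))
  linarith

theorem cos_outer {a b : ℝ} (ha : 0 ≤ a) (hb : 0 ≤ b) (ha' : a < 2 * Real.pi) (hb' : b < 2 * Real.pi) :
    Real.cos (0 - (a + b) / 2) ≤ Real.cos ((a - b) / 2) := by
  have e : Real.cos ((a - b) / 2) - Real.cos (0 - (a + b) / 2) =
      2 * (Real.sin (b / 2) * Real.sin (a / 2)) := by
    rw [Real.cos_sub_cos]
    have e1 : ((a - b) / 2 + (0 - (a + b) / 2)) / 2 = -(b / 2) := by ring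
    have e2 : ((a - b) / 2 - (0 - (a + b) / 2)) / 2 = a / 2 := by ring
    rw [e1, e2, Real.sin_neg]; ring
  have hs : 0 ≤ Real.sin (b / 2) * Real.sin (a / 2) :=
    mul_nonneg (Real.sin_nonneg_of_nonneg_of_le_pi (by linarith) (by linarith))
      (Real.sin_nonneg_of_nonneg_of_le_pi (by linarith) (by linarith))
  linarith

/-- discrete intermediate value theorem -/
theorem ivt (g : ℕ → ℝ) (N : ℕ) (h : g 0 + g N = 0) : N = 0 ∨ ∃ k < N, g k * g (k + 1) ≤ 0 := by
  by_contra hc
  push Not at hc
  obtain ⟨hN, hc⟩ := hc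
  have hpos : ∀ k ≤ N, 0 < g 0 * g k := by
    intro k
    induction k with
    | zero =>
      intro _
      have h0 : g 0 ≠ 0 := by
        intro h0
        have := hc 0 (Nat.pos_of_ne_zero hN)
        rw [h0, zero_mul] at this
        exact lt_irrefl _ this
      exact mul_self_pos.2 h0
    | succ k ih =>
      intro hk
      have h1 := ih (by omega)
      have h2 := hc k (by omega)
      have h3 : 0 < (g 0 * g k) * (g k * g (k + 1)) := mul_pos h1 h2
      have h4 : (g 0 * g k) * (g k * g (k + 1)) = (g k) ^ 2 * (g 0 * g (k + 1)) := by ring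
      rw [h4] at h3
      exact (pos_iff_pos_of_mul_pos h3).1 (by
        have : g k ≠ 0 := by intro h0; rw [h0, mul_zero] at h1; exact lt_irrefl _ h1
        positivity)
  have := hpos N le_rfl
  have h2 : g N = - g 0 := by linarith
  rw [h2] at this
  nlinarith [sq_nonneg (g 0)]

theorem map_split (A B : ℕ → ℂ) (k : ℕ) (T : Multiset ℕ) :
    T.map A + T.map B = T.map (fun j => if j < k then B j else A j) +
      T.map (fun j => if j < k then A j else B j) := by
  induction T using Multiset.induction_on with
  | empty => simp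
  | cons a T ih =>
    rw [Multiset.map_cons, Multiset.map_cons, Multiset.map_cons, Multiset.map_cons,
      Multiset.cons_add, Multiset.add_cons, ih, Multiset.cons_add, Multiset.add_cons]
    by_cases h : a < k
    · simp only [h, if_true]
      rw [Multiset.cons_swap]
    · simp only [h, if_false]

theorem sum_split (a b : ℕ → ℝ) (k : ℕ) (T : Multiset ℕ) :
    (T.map a).sum + (T.map b).sum = (T.map (fun j => if j < k then b j else a j)).sum +
      (T.map (fun j => if j < k then a j else b j)).sum := by
  induction T using Multiset.induction_on with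
  | empty => simp
  | cons c T ih =>
    simp only [Multiset.map_cons, Multiset.sum_cons]
    by_cases h : c < k
    · simp only [h, if_true]; linarith
    · simp only [h, if_false]; linarith

theorem list_form (l : List ℂ) (N : ℕ) (h : l.length = N) :
    (l : Multiset ℂ) = (Multiset.range N).map (fun j => l.getD j 0) := by
  subst h
  have : Multiset.range l.length = ((List.range l.length : List ℕ) : Multiset ℕ) := rfl
  rw [this, Multiset.map_coe]
  congr 1
  apply List.ext_getElem
  · simp
  · intro i h1 h2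
    simp [h1]

/-- the multiset of eigenvalues for `n = 2 N` -/
theorem even_form (S : Multiset ℂ) (N : ℕ) (h : Multiset.card S = 2 * N) :
    ∃ A B : ℕ → ℂ, S = (Multiset.range N).map A + (Multiset.range N).map B := by
  have hl : S.toList.length = 2 * N := by rw [Multiset.length_toList, h]
  refine ⟨fun j => (S.toList.take N).getD j 0, fun j => (S.toList.drop N).getD j 0, ?_⟩
  rw [← list_form _ N (by rw [List.length_take]; omega), ← list_form _ N (by rw [List.length_drop]; omega),
    Multiset.coe_add, List.take_append_drop, Multiset.coe_toList]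


theorem card_succ {S : Multiset ℂ} {k : ℕ} (h : Multiset.card S = k + 1) :
    ∃ x T, S = x ::ₘ T ∧ Multiset.card T = k := by
  have hpos : 0 < Multiset.card S := by omega
  obtain ⟨x, hx⟩ := Multiset.card_pos_iff_exists_mem.1 hpos
  obtain ⟨T, rfl⟩ := Multiset.exists_cons_of_mem hx
  exact ⟨x, T, rfl, by simpa using h⟩

/-- `n` odd -/
theorem four_odd (S : Multiset ℂ) (N : ℕ) (hN : 1 ≤ N) (hc : Multiset.card S = 2 * N + 1)
    (hn : ∀ z ∈ S, ‖z‖ = 1) (hp : S.prod = 1) {ι : Type} [Fintype ι] [DecidableEq ι] (d : ι → ℂ)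
    (hd : Multiset.map d Finset.univ.val = S) : Four (diagonal d) := by
  obtain ⟨x, S1, rfl, h1⟩ := card_succ hc
  obtain ⟨y, S2, rfl, h2⟩ := card_succ (show Multiset.card S1 = (2 * N - 1) + 1 by omega)
  obtain ⟨z, S3, rfl, h3⟩ := card_succ (show Multiset.card S2 = (2 * N - 2) + 1 by omega)
  have hx := hn x (by simp)
  have hy := hn y (by simp)
  have hz := hn z (by simp)
  have g := GoodM.addEven S3 (base2 hy hz) ⟨N - 1, by omega⟩ (fun w hw => hn w (by simp [hw]))
  have hx' := unit_conj hx
  have hxp : x * (S3.prod * (y * z)) = 1 := by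
    rw [← hp]; simp only [Multiset.prod_cons]; ring
  have hst : star (S3.prod * (y * z)) = x := by
    have hw : ‖S3.prod * (y * z)‖ = 1 := by
      rw [norm_mul, norm_mul, hy, hz, norm_mprod S3 (fun w hw => hn w (by simp [hw]))]; norm_num
    have hw' := unit_conj hw
    linear_combination x * hw' - (star (S3.prod * (y * z))) * hxp
  refine g.close (star_one ℂ) ?_ d ?_
  · rw [hst]
    simp only [Multiset.prod_add, Multiset.prod_cons, Multiset.prod_zero, mul_one]
    rw [← hp]; simp only [Multiset.prod_cons]; ring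
  · rw [hst, hd]
    simp only [← Multiset.singleton_add]
    abel

/-- `n` divisible by four -/
theorem four_four (S : Multiset ℂ) (N : ℕ) (hN : 1 ≤ N) (hc : Multiset.card S = 4 * N)
    (hn : ∀ z ∈ S, ‖z‖ = 1) (hp : S.prod = 1) {ι : Type} [Fintype ι] [DecidableEq ι] (d : ι → ℂ)
    (hd : Multiset.map d Finset.univ.val = S) : Four (diagonal d) := by
  obtain ⟨y, S2, rfl, h2⟩ := card_succ (show Multiset.card S = (4 * N - 1) + 1 by omega)
  obtain ⟨z, S3, rfl, h3⟩ := card_succ (show Multiset.card S2 = (4 * N - 2) + 1 by omega)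
  have hy := hn y (by simp)
  have hz := hn z (by simp)
  have g := GoodM.addEven S3 (base2 hy hz) ⟨2 * N - 1, by omega⟩ (fun w hw => hn w (by simp [hw]))
  have hxp : S3.prod * (y * z) = 1 := by
    rw [← hp]; simp only [Multiset.prod_cons]; ring
  rw [hxp] at g
  have e : S3 + y ::ₘ z ::ₘ 0 = y ::ₘ z ::ₘ S3 := by
    rw [Multiset.add_cons, Multiset.add_cons, add_zero]
  rw [e] at g
  exact g.finish (star_one ℂ) (star_one ℂ) hp (fun _ => by rw [hc]; exact ⟨N, by omega⟩) d hd

theorem card_filter_range (N k : ℕ) (hk : k < N) :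
    Multiset.card ((Multiset.range N).erase k) = N - 1 := by
  rw [Multiset.card_erase_of_mem (Multiset.mem_range.2 hk), Multiset.card_range]; rfl

/-- `n` twice an odd number -/
theorem four_two (S : Multiset ℂ) (N : ℕ) (hN : 3 ≤ N) (hodd : Odd N) (hc : Multiset.card S = 2 * N)
    (hn : ∀ z ∈ S, ‖z‖ = 1) (hp : S.prod = 1) {ι : Type} [Fintype ι] [DecidableEq ι] (d : ι → ℂ)
    (hd : Multiset.map d Finset.univ.val = S) : Four (diagonal d) := by
  obtain ⟨A, B, hS⟩ := even_form S N hc
  set a : ℕ → ℝ := fun j => ang (A j) with ha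
  set b : ℕ → ℝ := fun j => ang (B j) with hb
  have hAn : ∀ j ∈ Multiset.range N, ‖A j‖ = 1 := fun j hj => hn _ (by
    rw [hS]; exact Multiset.mem_add.2 (Or.inl (Multiset.mem_map_of_mem _ hj)))
  have hBn : ∀ j ∈ Multiset.range N, ‖B j‖ = 1 := fun j hj => hn _ (by
    rw [hS]; exact Multiset.mem_add.2 (Or.inr (Multiset.mem_map_of_mem _ hj)))
  have hAe : ∀ j ∈ Multiset.range N, A j = Complex.exp ((a j : ℝ) * Complex.I) :=
    fun j hj => (exp_ang (hAn j hj)).symm
  have hBe : ∀ j ∈ Multiset.range N, B j = Complex.exp ((b j : ℝ) * Complex.I) :=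
    fun j hj => (exp_ang (hBn j hj)).symm
  -- the total angle
  obtain ⟨m, hm⟩ : ∃ m : ℤ, ((Multiset.range N).map a).sum + ((Multiset.range N).map b).sum =
      m * (2 * Real.pi) := by
    have h1 : Complex.exp (((((Multiset.range N).map a).sum + ((Multiset.range N).map b).sum : ℝ) : ℂ) *
        Complex.I) = 1 := by
      rw [Complex.ofReal_add, add_mul, Complex.exp_add, ← prod_exp, ← prod_exp,
        ← Multiset.map_congr rfl hAe, ← Multiset.map_congr rfl hBe, ← Multiset.prod_add, ← hS, hp]
    rw [Complex.exp_eq_one_iff] at h1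
    obtain ⟨m, hm⟩ := h1
    refine ⟨m, ?_⟩
    have h2 := congrArg Complex.im hm
    simpa using h2
  -- the windows
  set f : ℕ → ℕ → ℝ := fun k j => if j < k then b j else a j with hf
  set g : ℕ → ℝ := fun k => ((Multiset.range N).map (f k)).sum - m * Real.pi with hg
  have hg0 : g 0 + g N = 0 := by
    have e0 : (Multiset.range N).map (f 0) = (Multiset.range N).map a :=
      Multiset.map_congr rfl (fun j _ => by simp [hf])
    have e1 : (Multiset.range N).map (f N) = (Multiset.range N).map b :=
      Multiset.map_congr rfl (fun j hj => by simp [hf, Multiset.mem_range.1 hj])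
    simp only [hg, e0, e1]
    linarith
  obtain h | ⟨k, hk, hkk⟩ := ivt g N hg0
  · omega
  set T := (Multiset.range N).erase k with hT
  have hTr : Multiset.range N = k ::ₘ T := (Multiset.cons_erase (Multiset.mem_range.2 hk)).symm
  have hkT : k ∉ T := by
    have := (Multiset.nodup_range N)
    rw [hTr, Multiset.nodup_cons] at this
    exact this.1
  have hTm : ∀ j ∈ T, j ∈ Multiset.range N := fun j hj => Multiset.mem_of_mem_erase hj
  have hcT : Multiset.card T = N - 1 := card_filter_range N k hk
  set V := T.map (fun j => if j < k then B j else A j) with hV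
  set R := T.map (fun j => if j < k then A j else B j) with hR
  have hSS : S = A k ::ₘ B k ::ₘ (V + R) := by
    rw [hS, hTr, Multiset.map_cons, Multiset.map_cons, Multiset.cons_add, Multiset.add_cons,
      map_split A B k T]
  have hkr := Multiset.mem_range.2 hk
  have hVn : ∀ z ∈ V, ‖z‖ = 1 := fun z hz => hn z (by rw [hSS]; simp [hz])
  have hRn : ∀ z ∈ R, ‖z‖ = 1 := fun z hz => hn z (by rw [hSS]; simp [hz])
  set s := (T.map (f k)).sum with hs
  have hgk : g k = s + a k - m * Real.pi := by
    simp only [hg]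
    rw [hTr, Multiset.map_cons, Multiset.sum_cons]
    simp [hf]; ring
  have hgk1 : g (k + 1) = s + b k - m * Real.pi := by
    simp only [hg]
    rw [hTr, Multiset.map_cons, Multiset.sum_cons]
    have : T.map (f (k + 1)) = T.map (f k) := by
      refine Multiset.map_congr rfl (fun j hj => ?_)
      have hjk : j ≠ k := fun h => hkT (h ▸ hj)
      simp only [hf]
      by_cases h : j < k
      · rw [if_pos h, if_pos (by omega)]
      · rw [if_neg h, if_neg (by omega)]
    rw [this]
    simp [hf]; ring
  set y : ℝ := m * Real.pi - s with hy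
  have hbetween : (a k - y) * (b k - y) ≤ 0 := by
    have e1 : a k - y = g k := by rw [hgk, hy]; ring
    have e2 : b k - y = g (k + 1) := by rw [hgk1, hy]; ring
    rw [e1, e2]; exact hkk
  obtain ⟨x, R1, hR1, hcR1⟩ := card_succ (show Multiset.card R = (N - 2) + 1 by
    rw [hR, Multiset.card_map, hcT]; omega)
  obtain ⟨e, U, rfl, hcU⟩ := card_succ (show Multiset.card R1 = (N - 3) + 1 by omega)
  have hx : ‖x‖ = 1 := hRn x (by rw [hR1]; simp)
  have he : ‖e‖ = 1 := hRn e (by rw [hR1]; simp)
  have hUn : ∀ z ∈ U, ‖z‖ = 1 := fun z hz => hRn z (by rw [hR1]; simp [hz])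
  have hSx : S = U + (V + (A k ::ₘ B k ::ₘ x ::ₘ e ::ₘ 0)) := by
    rw [hSS, hR1]
    simp only [← Multiset.singleton_add]
    abel
  have hcV : Even (Multiset.card V) := by
    rw [hV, Multiset.card_map, hcT]
    obtain ⟨r, hr⟩ := hodd
    exact ⟨r, by omega⟩
  have hcU' : Even (Multiset.card U) := by
    obtain ⟨r, hr⟩ := hodd
    exact ⟨r - 1, by omega⟩
  have ha0 := ang_nonneg (A k)
  have hb0 := ang_nonneg (B k)
  have ha1 := ang_lt (A k)
  have hb1 := ang_lt (B k)
  have hAk := hAe k hkr
  have hBk := hBe k hkr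
  set r : ℂ := Complex.exp ((((a k + b k) / 2 : ℝ) : ℂ) * Complex.I) with hr
  have hrn : ‖r‖ = 1 := norm_exp _
  have hrr : r * r = A k * B k := by
    rw [hAk, hBk, hr, ← Complex.exp_add, ← Complex.exp_add]
    congr 1
    push_cast; ring
  have hre : (A k * star r).re = Real.cos ((a k - b k) / 2) := by
    rw [hAk, hr, re_exp]
    congr 1
    ring
  have hin := cos_inner ha0 hb0 ha1 hb1 hbetween
  have hout := cos_outer ha0 hb0 ha1 hb1
  have hxe : x = Complex.exp ((ang x : ℝ) * Complex.I) := (exp_ang hx).symm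
  have hxre : (star x * star r).re = Real.cos (ang x + (a k + b k) / 2) := by
    have h1 : (star x * star r).re = (star (Complex.exp ((ang x : ℝ) * Complex.I)) * star r).re := by
      rw [← hxe]
    rw [h1, star_exp, hr, re_exp]
    rw [← Real.cos_neg]
    congr 1
    ring
  have hAkn := hAn k hkr
  have hBkn := hBn k hkr
  have hnV := norm_mprod V hVn
  have hnU := norm_mprod U hUn
  have uV := unit_conj hnV
  have hSp : U.prod * (V.prod * (A k * B k * x * e)) = 1 := by
    rw [← hp, hSx]
    simp only [Multiset.prod_add, Multiset.prod_cons, Multiset.prod_zero, mul_one]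
    ring
  rcases le_or_gt (Real.cos (ang x + (a k + b k) / 2)) (Real.cos ((a k - b k) / 2)) with hcase | hcase
  · -- the window construction
    set Y : ℂ := Complex.exp ((y : ℝ) * Complex.I) with hY
    have hYn : ‖Y‖ = 1 := norm_exp y
    have uY := unit_conj hYn
    have hYre : (Y * star r).re = Real.cos (y - (a k + b k) / 2) := by rw [hY, hr, re_exp]
    have g0 := base4 hAkn hBkn hYn hx he hrn hrr (by
      rw [hre, hYre, hxre, Set.mem_uIcc]
      exact Or.inr ⟨hcase, hin⟩)
    have g1 := GoodM.addEven V g0.symm hcV hVn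
    have g2 := GoodM.addEven U g1.symm hcU' hUn
    rw [← hSx] at g2
    -- the two remaining entries are real
    have hw : V.prod * Y = Complex.exp (((m * Real.pi : ℝ) : ℂ) * Complex.I) := by
      have hVp : V.prod = Complex.exp ((s : ℝ) * Complex.I) := by
        rw [hs, ← prod_exp, hV]
        congr 1
        refine Multiset.map_congr rfl (fun j hj => ?_)
        simp only [hf]
        by_cases h : j < k
        · rw [if_pos h, if_pos h]; exact hBe j (hTm j hj)
        · rw [if_neg h, if_neg h]; exact hAe j (hTm j hj)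
      rw [hVp, hY, ← Complex.exp_add]
      congr 1
      rw [hy]; push_cast; ring
    have hwn : ‖V.prod * Y‖ = 1 := by rw [norm_mul, hnV, hYn, one_mul]
    have hwr : star (V.prod * Y) = V.prod * Y := by
      apply real_of_mul hwn
      rw [hw, ← Complex.exp_add, Complex.exp_eq_one_iff]
      exact ⟨m, by push_cast; ring⟩
    have hz : U.prod * (A k * B k * x * e * star Y) = star (V.prod * Y) := by
      rw [star_mul']
      linear_combination (star V.prod * star Y) * hSp - (U.prod * (A k * B k * x * e) * star Y) * uV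
    refine g2.finish ?_ ?_ hp (fun h => by cases h) d hd
    · exact hwr
    · rw [hz, star_star, hwr]
  · -- the entry one
    have h1re : ((1 : ℂ) * star r).re = Real.cos (0 - (a k + b k) / 2) := by
      have : (1 : ℂ) = Complex.exp (((0 : ℝ) : ℂ) * Complex.I) := by simp
      rw [this, hr, re_exp]
    have g0 := base4 hAkn hBkn norm_one hx he hrn hrr (by
      rw [hre, h1re, hxre, Set.mem_uIcc]
      exact Or.inl ⟨hout, hcase.le⟩)
    have g1 := GoodM.addEven V g0 hcV hVn
    have g2 := GoodM.addEven U g1 hcU' hUn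
    rw [← hSx] at g2
    have hz : U.prod * (V.prod * (A k * B k * x * e * star 1)) = 1 := by
      rw [star_one, mul_one]; exact hSp
    rw [hz] at g2
    exact g2.finish (star_one ℂ) (star_one ℂ) hp (fun h => by cases h) d hd

/-- every special unitary matrix of size at least three is a product of four involutions -/
theorem main (n : ℕ) (hn : 3 ≤ n) (A : Matrix (Fin n) (Fin n) ℂ) (hA : A ∈ specialUnitaryGroup (Fin n) ℂ) :
    Four A := by
  rw [mem_specialUnitaryGroup_iff] at hA
  obtain ⟨V, hV, d, hd⟩ := Pool.TH236.SU.unitary_diag A hA.1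
  have hVs : V * star V = 1 := mem_unitaryGroup_iff.1 hV
  have hVs' : star V * V = 1 := mem_unitaryGroup_iff'.1 hV
  have hdd : diagonal d = star V * A * V := by
    rw [hd]
    calc diagonal d = (star V * V) * diagonal d * (star V * V) := by
          rw [hVs', Matrix.one_mul, Matrix.mul_one]
      _ = _ := by simp only [Matrix.mul_assoc]
  have hdu : diagonal d ∈ unitaryGroup (Fin n) ℂ := by
    rw [hdd]; exact mul_mem (mul_mem (Unitary.star_mem hV) hA.1) hV
  have hdn : ∀ i, ‖d i‖ = 1 := by
    intro i
    rw [mem_unitaryGroup_iff, star_eq_conjTranspose, diagonal_conjTranspose, diagonal_mul_diagonal] at hdu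
    have h1 := congrFun (congrFun hdu i) i
    rw [diagonal_apply_eq, one_apply_eq] at h1
    have h2 : d i * star (d i) = 1 := h1
    have h3 := congrArg norm h2
    rw [norm_mul, norm_star, norm_one] at h3
    nlinarith [norm_nonneg (d i)]
  have hprod : ∏ i, d i = 1 := by
    rw [← det_diagonal, hdd, det_mul, det_mul, hA.2, mul_one, ← det_mul, hVs', det_one]
  have hfour : Four (diagonal d) := by
    have hS1 : ∀ z ∈ Multiset.map d Finset.univ.val, ‖z‖ = 1 := by
      intro z hz
      obtain ⟨i, _, rfl⟩ := Multiset.mem_map.1 hz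
      exact hdn i
    have hS2 : (Multiset.map d Finset.univ.val).prod = 1 := by
      rw [← Finset.prod_eq_multiset_prod, hprod]
    have hS3 : Multiset.card (Multiset.map d (Finset.univ : Finset (Fin n)).val) = n := by
      rw [Multiset.card_map, Finset.card_val, Finset.card_univ, Fintype.card_fin]
    have h4 : n % 2 = 1 ∨ n % 4 = 0 ∨ n % 4 = 2 := by omega
    rcases h4 with h | h | h
    · exact four_odd _ (n / 2) (by omega) (by omega) hS1 hS2 d rfl
    · exact four_four _ (n / 4) (by omega) (by omega) hS1 hS2 d rfl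
    · exact four_two _ (n / 2) (by omega) ⟨n / 4, by omega⟩ (by omega) hS1 hS2 d rfl
  obtain ⟨P, Q, hP, hQ, hPQ⟩ := hfour
  refine ⟨V * P * star V, V * Q * star V, hP.conj V hV, hQ.conj V hV, ?_⟩
  rw [hd, hPQ]
  calc V * (P * Q) * star V = V * P * (1 : Matrix (Fin n) (Fin n) ℂ) * Q * star V := by
        rw [Matrix.mul_one]; simp only [Matrix.mul_assoc]
    _ = _ := by rw [← hVs']; simp only [Matrix.mul_assoc]

end Pool.Q21.SU
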